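import Pool.Agent.Helper82.TY.LayAll

/-! MP_8ee768_co, project TH-Y', rows with layers, types 201 .. 385 -/

set_option autoImplicit false
set_option maxRecDepth 100000

namespace Pool.Agent.Gen.TY.LR.P1

open Pool.Agent.Helper82.TY

def p0 : rowsT 201 7 = true := by decide +kernel
def p1 : rowsT 208 8 = true := by decide +kernel
def p2 : rowsT 216 8 = true := by decide +kernel
def p3 : rowsT 224 8 = true := by decide +kernel
def p4 : rowsT 232 12 = true := by decide +kernel
def p5 : rowsT 244 9 = true := by decide +kernel
def p6 : rowsT 253 9 = true := by decide +kernel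
def p7 : rowsT 262 9 = true := by decide +kernel
def p8 : rowsT 271 7 = true := by decide +kernel
def p9 : rowsT 278 12 = true := by decide +kernel
def p10 : rowsT 290 12 = true := by decide +kernel
def p11 : rowsT 302 11 = true := by decide +kernel
def p12 : rowsT 313 8 = true := by decide +kernel
def p13 : rowsT 321 10 = true := by decide +kernel
def p14 : rowsT 331 4 = true := by decide +kernel
def p15 : rowsT 335 4 = true := by decide +kernel
def p16 : rowsT 339 8 = true := by decide +kernel
def p17 : rowsT 347 8 = true := by decide +kernel
def p18 : rowsT 355 7 = true := by decide +kernel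
def p19 : rowsT 362 4 = true := by decide +kernel
def p20 : rowsT 366 7 = true := by decide +kernel
def p21 : rowsT 373 13 = true := by decide +kernel

theorem ok {t : ℕ} (h1 : 201 ≤ t) (h2 : t < 386) : RowChk t := by
  rcases Nat.lt_or_ge t 208 with h | h
  · exact rowsT_spec p0 t (by omega) (by omega)
  clear h1; rename' h => h1
  rcases Nat.lt_or_ge t 216 with h | h
  · exact rowsT_spec p1 t (by omega) (by omega)
  clear h1; rename' h => h1
  rcases Nat.lt_or_ge t 224 with h | h
  · exact rowsT_spec p2 t (by omega) (by omega)
  clear h1; rename' h => h1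
  rcases Nat.lt_or_ge t 232 with h | h
  · exact rowsT_spec p3 t (by omega) (by omega)
  clear h1; rename' h => h1
  rcases Nat.lt_or_ge t 244 with h | h
  · exact rowsT_spec p4 t (by omega) (by omega)
  clear h1; rename' h => h1
  rcases Nat.lt_or_ge t 253 with h | h
  · exact rowsT_spec p5 t (by omega) (by omega)
  clear h1; rename' h => h1
  rcases Nat.lt_or_ge t 262 with h | h
  · exact rowsT_spec p6 t (by omega) (by omega)
  clear h1; rename' h => h1
  rcases Nat.lt_or_ge t 271 with h | h
  · exact rowsT_spec p7 t (by omega) (by omega)
  clear h1; rename' h => h1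
  rcases Nat.lt_or_ge t 278 with h | h
  · exact rowsT_spec p8 t (by omega) (by omega)
  clear h1; rename' h => h1
  rcases Nat.lt_or_ge t 290 with h | h
  · exact rowsT_spec p9 t (by omega) (by omega)
  clear h1; rename' h => h1
  rcases Nat.lt_or_ge t 302 with h | h
  · exact rowsT_spec p10 t (by omega) (by omega)
  clear h1; rename' h => h1
  rcases Nat.lt_or_ge t 313 with h | h
  · exact rowsT_spec p11 t (by omega) (by omega)
  clear h1; rename' h => h1
  rcases Nat.lt_or_ge t 321 with h | h
  · exact rowsT_spec p12 t (by omega) (by omega)
  clear h1; rename' h => h1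
  rcases Nat.lt_or_ge t 331 with h | h
  · exact rowsT_spec p13 t (by omega) (by omega)
  clear h1; rename' h => h1
  rcases Nat.lt_or_ge t 335 with h | h
  · exact rowsT_spec p14 t (by omega) (by omega)
  clear h1; rename' h => h1
  rcases Nat.lt_or_ge t 339 with h | h
  · exact rowsT_spec p15 t (by omega) (by omega)
  clear h1; rename' h => h1
  rcases Nat.lt_or_ge t 347 with h | h
  · exact rowsT_spec p16 t (by omega) (by omega)
  clear h1; rename' h => h1
  rcases Nat.lt_or_ge t 355 with h | h
  · exact rowsT_spec p17 t (by omega) (by omega)
  clear h1; rename' h => h1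
  rcases Nat.lt_or_ge t 362 with h | h
  · exact rowsT_spec p18 t (by omega) (by omega)
  clear h1; rename' h => h1
  rcases Nat.lt_or_ge t 366 with h | h
  · exact rowsT_spec p19 t (by omega) (by omega)
  clear h1; rename' h => h1
  rcases Nat.lt_or_ge t 373 with h | h
  · exact rowsT_spec p20 t (by omega) (by omega)
  clear h1; rename' h => h1
  exact rowsT_spec p21 t (by omega) (by omega)

end Pool.Agent.Gen.TY.LR.P1
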