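import Pool.Agent.Helper82.TY.LayAll

/-! MP_8ee768_co, project TH-Y', rows with layers, types 386 .. 543 -/

set_option autoImplicit false
set_option maxRecDepth 100000

namespace Pool.Agent.Gen.TY.LR.P2

open Pool.Agent.Helper82.TY

def p0 : rowsT 386 10 = true := by decide +kernel
def p1 : rowsT 396 10 = true := by decide +kernel
def p2 : rowsT 406 2 = true := by decide +kernel
def p3 : rowsT 408 1 = true := by decide +kernel
def p4 : rowsT 409 11 = true := by decide +kernel
def p5 : rowsT 420 9 = true := by decide +kernel
def p6 : rowsT 429 6 = true := by decide +kernel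
def p7 : rowsT 435 8 = true := by decide +kernel
def p8 : rowsT 443 10 = true := by decide +kernel
def p9 : rowsT 453 7 = true := by decide +kernel
def p10 : rowsT 460 7 = true := by decide +kernel
def p11 : rowsT 467 5 = true := by decide +kernel
def p12 : rowsT 472 6 = true := by decide +kernel
def p13 : rowsT 478 5 = true := by decide +kernel
def p14 : rowsT 483 5 = true := by decide +kernel
def p15 : rowsT 488 13 = true := by decide +kernel
def p16 : rowsT 501 10 = true := by decide +kernel
def p17 : rowsT 511 10 = true := by decide +kernel
def p18 : rowsT 521 3 = true := by decide +kernel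
def p19 : rowsT 524 3 = true := by decide +kernel
def p20 : rowsT 527 8 = true := by decide +kernel
def p21 : rowsT 535 9 = true := by decide +kernel

theorem ok {t : ℕ} (h1 : 386 ≤ t) (h2 : t < 544) : RowChk t := by
  rcases Nat.lt_or_ge t 396 with h | h
  · exact rowsT_spec p0 t (by omega) (by omega)
  clear h1; rename' h => h1
  rcases Nat.lt_or_ge t 406 with h | h
  · exact rowsT_spec p1 t (by omega) (by omega)
  clear h1; rename' h => h1
  rcases Nat.lt_or_ge t 408 with h | h
  · exact rowsT_spec p2 t (by omega) (by omega)
  clear h1; rename' h => h1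
  rcases Nat.lt_or_ge t 409 with h | h
  · exact rowsT_spec p3 t (by omega) (by omega)
  clear h1; rename' h => h1
  rcases Nat.lt_or_ge t 420 with h | h
  · exact rowsT_spec p4 t (by omega) (by omega)
  clear h1; rename' h => h1
  rcases Nat.lt_or_ge t 429 with h | h
  · exact rowsT_spec p5 t (by omega) (by omega)
  clear h1; rename' h => h1
  rcases Nat.lt_or_ge t 435 with h | h
  · exact rowsT_spec p6 t (by omega) (by omega)
  clear h1; rename' h => h1
  rcases Nat.lt_or_ge t 443 with h | h
  · exact rowsT_spec p7 t (by omega) (by omega)
  clear h1; rename' h => h1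
  rcases Nat.lt_or_ge t 453 with h | h
  · exact rowsT_spec p8 t (by omega) (by omega)
  clear h1; rename' h => h1
  rcases Nat.lt_or_ge t 460 with h | h
  · exact rowsT_spec p9 t (by omega) (by omega)
  clear h1; rename' h => h1
  rcases Nat.lt_or_ge t 467 with h | h
  · exact rowsT_spec p10 t (by omega) (by omega)
  clear h1; rename' h => h1
  rcases Nat.lt_or_ge t 472 with h | h
  · exact rowsT_spec p11 t (by omega) (by omega)
  clear h1; rename' h => h1
  rcases Nat.lt_or_ge t 478 with h | h
  · exact rowsT_spec p12 t (by omega) (by omega)
  clear h1; rename' h => h1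
  rcases Nat.lt_or_ge t 483 with h | h
  · exact rowsT_spec p13 t (by omega) (by omega)
  clear h1; rename' h => h1
  rcases Nat.lt_or_ge t 488 with h | h
  · exact rowsT_spec p14 t (by omega) (by omega)
  clear h1; rename' h => h1
  rcases Nat.lt_or_ge t 501 with h | h
  · exact rowsT_spec p15 t (by omega) (by omega)
  clear h1; rename' h => h1
  rcases Nat.lt_or_ge t 511 with h | h
  · exact rowsT_spec p16 t (by omega) (by omega)
  clear h1; rename' h => h1
  rcases Nat.lt_or_ge t 521 with h | h
  · exact rowsT_spec p17 t (by omega) (by omega)
  clear h1; rename' h => h1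
  rcases Nat.lt_or_ge t 524 with h | h
  · exact rowsT_spec p18 t (by omega) (by omega)
  clear h1; rename' h => h1
  rcases Nat.lt_or_ge t 527 with h | h
  · exact rowsT_spec p19 t (by omega) (by omega)
  clear h1; rename' h => h1
  rcases Nat.lt_or_ge t 535 with h | h
  · exact rowsT_spec p20 t (by omega) (by omega)
  clear h1; rename' h => h1
  exact rowsT_spec p21 t (by omega) (by omega)

end Pool.Agent.Gen.TY.LR.P2
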