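import Pool.Agent.Helper82.TY.LayAll

/-! MP_8ee768_co, project TH-Y', rows with layers, types 544 .. 732 -/

set_option autoImplicit false
set_option maxRecDepth 100000

namespace Pool.Agent.Gen.TY.LR.P3

open Pool.Agent.Helper82.TY

def p0 : rowsT 544 8 = true := by decide +kernel
def p1 : rowsT 552 9 = true := by decide +kernel
def p2 : rowsT 561 14 = true := by decide +kernel
def p3 : rowsT 575 10 = true := by decide +kernel
def p4 : rowsT 585 11 = true := by decide +kernel
def p5 : rowsT 596 7 = true := by decide +kernel
def p6 : rowsT 603 9 = true := by decide +kernel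
def p7 : rowsT 612 9 = true := by decide +kernel
def p8 : rowsT 621 9 = true := by decide +kernel
def p9 : rowsT 630 6 = true := by decide +kernel
def p10 : rowsT 636 7 = true := by decide +kernel
def p11 : rowsT 643 2 = true := by decide +kernel
def p12 : rowsT 645 1 = true := by decide +kernel
def p13 : rowsT 646 5 = true := by decide +kernel
def p14 : rowsT 651 8 = true := by decide +kernel
def p15 : rowsT 659 7 = true := by decide +kernel
def p16 : rowsT 666 8 = true := by decide +kernel
def p17 : rowsT 674 9 = true := by decide +kernel
def p18 : rowsT 683 12 = true := by decide +kernel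
def p19 : rowsT 695 16 = true := by decide +kernel
def p20 : rowsT 711 11 = true := by decide +kernel
def p21 : rowsT 722 11 = true := by decide +kernel

theorem ok {t : ℕ} (h1 : 544 ≤ t) (h2 : t < 733) : RowChk t := by
  rcases Nat.lt_or_ge t 552 with h | h
  · exact rowsT_spec p0 t (by omega) (by omega)
  clear h1; rename' h => h1
  rcases Nat.lt_or_ge t 561 with h | h
  · exact rowsT_spec p1 t (by omega) (by omega)
  clear h1; rename' h => h1
  rcases Nat.lt_or_ge t 575 with h | h
  · exact rowsT_spec p2 t (by omega) (by omega)
  clear h1; rename' h => h1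
  rcases Nat.lt_or_ge t 585 with h | h
  · exact rowsT_spec p3 t (by omega) (by omega)
  clear h1; rename' h => h1
  rcases Nat.lt_or_ge t 596 with h | h
  · exact rowsT_spec p4 t (by omega) (by omega)
  clear h1; rename' h => h1
  rcases Nat.lt_or_ge t 603 with h | h
  · exact rowsT_spec p5 t (by omega) (by omega)
  clear h1; rename' h => h1
  rcases Nat.lt_or_ge t 612 with h | h
  · exact rowsT_spec p6 t (by omega) (by omega)
  clear h1; rename' h => h1
  rcases Nat.lt_or_ge t 621 with h | h
  · exact rowsT_spec p7 t (by omega) (by omega)
  clear h1; rename' h => h1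
  rcases Nat.lt_or_ge t 630 with h | h
  · exact rowsT_spec p8 t (by omega) (by omega)
  clear h1; rename' h => h1
  rcases Nat.lt_or_ge t 636 with h | h
  · exact rowsT_spec p9 t (by omega) (by omega)
  clear h1; rename' h => h1
  rcases Nat.lt_or_ge t 643 with h | h
  · exact rowsT_spec p10 t (by omega) (by omega)
  clear h1; rename' h => h1
  rcases Nat.lt_or_ge t 645 with h | h
  · exact rowsT_spec p11 t (by omega) (by omega)
  clear h1; rename' h => h1
  rcases Nat.lt_or_ge t 646 with h | h
  · exact rowsT_spec p12 t (by omega) (by omega)
  clear h1; rename' h => h1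
  rcases Nat.lt_or_ge t 651 with h | h
  · exact rowsT_spec p13 t (by omega) (by omega)
  clear h1; rename' h => h1
  rcases Nat.lt_or_ge t 659 with h | h
  · exact rowsT_spec p14 t (by omega) (by omega)
  clear h1; rename' h => h1
  rcases Nat.lt_or_ge t 666 with h | h
  · exact rowsT_spec p15 t (by omega) (by omega)
  clear h1; rename' h => h1
  rcases Nat.lt_or_ge t 674 with h | h
  · exact rowsT_spec p16 t (by omega) (by omega)
  clear h1; rename' h => h1
  rcases Nat.lt_or_ge t 683 with h | h
  · exact rowsT_spec p17 t (by omega) (by omega)
  clear h1; rename' h => h1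
  rcases Nat.lt_or_ge t 695 with h | h
  · exact rowsT_spec p18 t (by omega) (by omega)
  clear h1; rename' h => h1
  rcases Nat.lt_or_ge t 711 with h | h
  · exact rowsT_spec p19 t (by omega) (by omega)
  clear h1; rename' h => h1
  rcases Nat.lt_or_ge t 722 with h | h
  · exact rowsT_spec p20 t (by omega) (by omega)
  clear h1; rename' h => h1
  exact rowsT_spec p21 t (by omega) (by omega)

end Pool.Agent.Gen.TY.LR.P3
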