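import Pool.Agent.Helper82.TY.LayAll

/-! MP_8ee768_co, project TH-Y', rows with layers, types 733 .. 939 -/

set_option autoImplicit false
set_option maxRecDepth 100000

namespace Pool.Agent.Gen.TY.LR.P4

open Pool.Agent.Helper82.TY

def p0 : rowsT 733 11 = true := by decide +kernel
def p1 : rowsT 744 7 = true := by decide +kernel
def p2 : rowsT 751 9 = true := by decide +kernel
def p3 : rowsT 760 9 = true := by decide +kernel
def p4 : rowsT 769 7 = true := by decide +kernel
def p5 : rowsT 776 6 = true := by decide +kernel
def p6 : rowsT 782 7 = true := by decide +kernel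
def p7 : rowsT 789 11 = true := by decide +kernel
def p8 : rowsT 800 10 = true := by decide +kernel
def p9 : rowsT 810 5 = true := by decide +kernel
def p10 : rowsT 815 13 = true := by decide +kernel
def p11 : rowsT 828 10 = true := by decide +kernel
def p12 : rowsT 838 7 = true := by decide +kernel
def p13 : rowsT 845 9 = true := by decide +kernel
def p14 : rowsT 854 10 = true := by decide +kernel
def p15 : rowsT 864 10 = true := by decide +kernel
def p16 : rowsT 874 11 = true := by decide +kernel
def p17 : rowsT 885 13 = true := by decide +kernel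
def p18 : rowsT 898 8 = true := by decide +kernel
def p19 : rowsT 906 10 = true := by decide +kernel
def p20 : rowsT 916 15 = true := by decide +kernel
def p21 : rowsT 931 9 = true := by decide +kernel

theorem ok {t : ℕ} (h1 : 733 ≤ t) (h2 : t < 940) : RowChk t := by
  rcases Nat.lt_or_ge t 744 with h | h
  · exact rowsT_spec p0 t (by omega) (by omega)
  clear h1; rename' h => h1
  rcases Nat.lt_or_ge t 751 with h | h
  · exact rowsT_spec p1 t (by omega) (by omega)
  clear h1; rename' h => h1
  rcases Nat.lt_or_ge t 760 with h | h
  · exact rowsT_spec p2 t (by omega) (by omega)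
  clear h1; rename' h => h1
  rcases Nat.lt_or_ge t 769 with h | h
  · exact rowsT_spec p3 t (by omega) (by omega)
  clear h1; rename' h => h1
  rcases Nat.lt_or_ge t 776 with h | h
  · exact rowsT_spec p4 t (by omega) (by omega)
  clear h1; rename' h => h1
  rcases Nat.lt_or_ge t 782 with h | h
  · exact rowsT_spec p5 t (by omega) (by omega)
  clear h1; rename' h => h1
  rcases Nat.lt_or_ge t 789 with h | h
  · exact rowsT_spec p6 t (by omega) (by omega)
  clear h1; rename' h => h1
  rcases Nat.lt_or_ge t 800 with h | h
  · exact rowsT_spec p7 t (by omega) (by omega)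
  clear h1; rename' h => h1
  rcases Nat.lt_or_ge t 810 with h | h
  · exact rowsT_spec p8 t (by omega) (by omega)
  clear h1; rename' h => h1
  rcases Nat.lt_or_ge t 815 with h | h
  · exact rowsT_spec p9 t (by omega) (by omega)
  clear h1; rename' h => h1
  rcases Nat.lt_or_ge t 828 with h | h
  · exact rowsT_spec p10 t (by omega) (by omega)
  clear h1; rename' h => h1
  rcases Nat.lt_or_ge t 838 with h | h
  · exact rowsT_spec p11 t (by omega) (by omega)
  clear h1; rename' h => h1
  rcases Nat.lt_or_ge t 845 with h | h
  · exact rowsT_spec p12 t (by omega) (by omega)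
  clear h1; rename' h => h1
  rcases Nat.lt_or_ge t 854 with h | h
  · exact rowsT_spec p13 t (by omega) (by omega)
  clear h1; rename' h => h1
  rcases Nat.lt_or_ge t 864 with h | h
  · exact rowsT_spec p14 t (by omega) (by omega)
  clear h1; rename' h => h1
  rcases Nat.lt_or_ge t 874 with h | h
  · exact rowsT_spec p15 t (by omega) (by omega)
  clear h1; rename' h => h1
  rcases Nat.lt_or_ge t 885 with h | h
  · exact rowsT_spec p16 t (by omega) (by omega)
  clear h1; rename' h => h1
  rcases Nat.lt_or_ge t 898 with h | h
  · exact rowsT_spec p17 t (by omega) (by omega)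
  clear h1; rename' h => h1
  rcases Nat.lt_or_ge t 906 with h | h
  · exact rowsT_spec p18 t (by omega) (by omega)
  clear h1; rename' h => h1
  rcases Nat.lt_or_ge t 916 with h | h
  · exact rowsT_spec p19 t (by omega) (by omega)
  clear h1; rename' h => h1
  rcases Nat.lt_or_ge t 931 with h | h
  · exact rowsT_spec p20 t (by omega) (by omega)
  clear h1; rename' h => h1
  exact rowsT_spec p21 t (by omega) (by omega)

end Pool.Agent.Gen.TY.LR.P4
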