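import Pool.Agent.Helper82.TY.LayAll

/-! MP_8ee768_co, project TH-Y', rows with layers, types 940 .. 4332 -/

set_option autoImplicit false
set_option maxRecDepth 100000

namespace Pool.Agent.Gen.TY.LR.P5

open Pool.Agent.Helper82.TY

def p0 : rowsT 940 7 = true := by decide +kernel
def p1 : rowsT 947 8 = true := by decide +kernel
def p2 : rowsT 955 8 = true := by decide +kernel
def p3 : rowsT 963 8 = true := by decide +kernel
def p4 : rowsT 971 1 = true := by decide +kernel
def p5 : rowsT 972 7 = true := by decide +kernel
def p6 : rowsT 979 3 = true := by decide +kernel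
def p7_0 : rowT 982 0 24 = true := by decide +kernel
def p7_1 : rowT 982 24 24 = true := by decide +kernel
def p7_2 : rowT 982 48 24 = true := by decide +kernel
def p7_3 : rowT 982 72 24 = true := by decide +kernel
def p7_4 : rowT 982 96 24 = true := by decide +kernel
def p7_5 : rowT 982 120 24 = true := by decide +kernel
def p7_6 : rowT 982 144 24 = true := by decide +kernel
def p7_n : Nat.ble (Pool.Agent.Helper7.TB.nl 982) (64 * (24 * 7)) = true := by decide +kernel

theorem p7 : RowChk 982 := by
  refine rowT_parts (K := 24) (q := 7) (by norm_num) ?_ p7_n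
  intro k hk
  interval_cases k
  · exact p7_0
  · exact p7_1
  · exact p7_2
  · exact p7_3
  · exact p7_4
  · exact p7_5
  · exact p7_6

def p8 : rowsT 983 242 = true := by decide +kernel
def p9 : rowsT 1225 245 = true := by decide +kernel
def p10 : rowsT 1470 245 = true := by decide +kernel
def p11 : rowsT 1715 246 = true := by decide +kernel
def p12 : rowsT 1961 243 = true := by decide +kernel
def p13 : rowsT 2204 235 = true := by decide +kernel
def p14 : rowsT 2439 245 = true := by decide +kernel
def p15 : rowsT 2684 247 = true := by decide +kernel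
def p16 : rowsT 2931 239 = true := by decide +kernel
def p17 : rowsT 3170 246 = true := by decide +kernel
def p18 : rowsT 3416 243 = true := by decide +kernel
def p19 : rowsT 3659 245 = true := by decide +kernel
def p20 : rowsT 3904 200 = true := by decide +kernel
def p21 : rowsT 4104 229 = true := by decide +kernel

theorem ok {t : ℕ} (h1 : 940 ≤ t) (h2 : t < 4333) : RowChk t := by
  rcases Nat.lt_or_ge t 947 with h | h
  · exact rowsT_spec p0 t (by omega) (by omega)
  clear h1; rename' h => h1
  rcases Nat.lt_or_ge t 955 with h | h
  · exact rowsT_spec p1 t (by omega) (by omega)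
  clear h1; rename' h => h1
  rcases Nat.lt_or_ge t 963 with h | h
  · exact rowsT_spec p2 t (by omega) (by omega)
  clear h1; rename' h => h1
  rcases Nat.lt_or_ge t 971 with h | h
  · exact rowsT_spec p3 t (by omega) (by omega)
  clear h1; rename' h => h1
  rcases Nat.lt_or_ge t 972 with h | h
  · exact rowsT_spec p4 t (by omega) (by omega)
  clear h1; rename' h => h1
  rcases Nat.lt_or_ge t 979 with h | h
  · exact rowsT_spec p5 t (by omega) (by omega)
  clear h1; rename' h => h1
  rcases Nat.lt_or_ge t 982 with h | h
  · exact rowsT_spec p6 t (by omega) (by omega)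
  clear h1; rename' h => h1
  rcases Nat.lt_or_ge t 983 with h | h
  · have h3 : t = 982 := by omega
    rw [h3]
    exact p7
  clear h1; rename' h => h1
  rcases Nat.lt_or_ge t 1225 with h | h
  · exact rowsT_spec p8 t (by omega) (by omega)
  clear h1; rename' h => h1
  rcases Nat.lt_or_ge t 1470 with h | h
  · exact rowsT_spec p9 t (by omega) (by omega)
  clear h1; rename' h => h1
  rcases Nat.lt_or_ge t 1715 with h | h
  · exact rowsT_spec p10 t (by omega) (by omega)
  clear h1; rename' h => h1
  rcases Nat.lt_or_ge t 1961 with h | h
  · exact rowsT_spec p11 t (by omega) (by omega)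
  clear h1; rename' h => h1
  rcases Nat.lt_or_ge t 2204 with h | h
  · exact rowsT_spec p12 t (by omega) (by omega)
  clear h1; rename' h => h1
  rcases Nat.lt_or_ge t 2439 with h | h
  · exact rowsT_spec p13 t (by omega) (by omega)
  clear h1; rename' h => h1
  rcases Nat.lt_or_ge t 2684 with h | h
  · exact rowsT_spec p14 t (by omega) (by omega)
  clear h1; rename' h => h1
  rcases Nat.lt_or_ge t 2931 with h | h
  · exact rowsT_spec p15 t (by omega) (by omega)
  clear h1; rename' h => h1
  rcases Nat.lt_or_ge t 3170 with h | h
  · exact rowsT_spec p16 t (by omega) (by omega)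
  clear h1; rename' h => h1
  rcases Nat.lt_or_ge t 3416 with h | h
  · exact rowsT_spec p17 t (by omega) (by omega)
  clear h1; rename' h => h1
  rcases Nat.lt_or_ge t 3659 with h | h
  · exact rowsT_spec p18 t (by omega) (by omega)
  clear h1; rename' h => h1
  rcases Nat.lt_or_ge t 3904 with h | h
  · exact rowsT_spec p19 t (by omega) (by omega)
  clear h1; rename' h => h1
  rcases Nat.lt_or_ge t 4104 with h | h
  · exact rowsT_spec p20 t (by omega) (by omega)
  clear h1; rename' h => h1
  exact rowsT_spec p21 t (by omega) (by omega)

end Pool.Agent.Gen.TY.LR.P5
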