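import Pool.Agent.Helper82.TY.LayAll

/-! MP_8ee768_co, project TH-Y', rows with layers, types 4333 .. 5073 -/

set_option autoImplicit false
set_option maxRecDepth 100000

namespace Pool.Agent.Gen.TY.LR.P6

open Pool.Agent.Helper82.TY

def p0 : rowsT 4333 223 = true := by decide +kernel
def p1 : rowsT 4556 235 = true := by decide +kernel
def p2 : rowsT 4791 199 = true := by decide +kernel
def p3 : rowsT 4990 84 = true := by decide +kernel

theorem ok {t : ℕ} (h1 : 4333 ≤ t) (h2 : t < 5074) : RowChk t := by
  rcases Nat.lt_or_ge t 4556 with h | h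
  · exact rowsT_spec p0 t (by omega) (by omega)
  clear h1; rename' h => h1
  rcases Nat.lt_or_ge t 4791 with h | h
  · exact rowsT_spec p1 t (by omega) (by omega)
  clear h1; rename' h => h1
  rcases Nat.lt_or_ge t 4990 with h | h
  · exact rowsT_spec p2 t (by omega) (by omega)
  clear h1; rename' h => h1
  exact rowsT_spec p3 t (by omega) (by omega)

end Pool.Agent.Gen.TY.LR.P6
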