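import Pool.Agent.Gen.TY.LR.P0
import Pool.Agent.Gen.TY.LR.P1
import Pool.Agent.Gen.TY.LR.P2
import Pool.Agent.Gen.TY.LR.P3
import Pool.Agent.Gen.TY.LR.P4
import Pool.Agent.Gen.TY.LR.P5
import Pool.Agent.Gen.TY.LR.P6

/-! MP_8ee768_co, project TH-Y', rows with layers: all types -/

set_option autoImplicit false

namespace Pool.Agent.Gen.TY.LR

open Pool.Agent.Helper82.TY

theorem rowChk_all {t : ℕ} (h1 : 2 ≤ t) (h2 : t < 5074) : RowChk t := by
  rcases Nat.lt_or_ge t 201 with h | h
  · exact P0.ok (by omega) (by omega)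
  clear h1; rename' h => h1
  rcases Nat.lt_or_ge t 386 with h | h
  · exact P1.ok (by omega) (by omega)
  clear h1; rename' h => h1
  rcases Nat.lt_or_ge t 544 with h | h
  · exact P2.ok (by omega) (by omega)
  clear h1; rename' h => h1
  rcases Nat.lt_or_ge t 733 with h | h
  · exact P3.ok (by omega) (by omega)
  clear h1; rename' h => h1
  rcases Nat.lt_or_ge t 940 with h | h
  · exact P4.ok (by omega) (by omega)
  clear h1; rename' h => h1
  rcases Nat.lt_or_ge t 4333 with h | h
  · exact P5.ok (by omega) (by omega)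
  clear h1; rename' h => h1
  exact P6.ok (by omega) (by omega)

end Pool.Agent.Gen.TY.LR
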