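import Pool.Agent.Helper82.TY.LayAll

/-! MP_8ee768_co, project TH-Y', rows with layers, types 2 .. 200 -/

set_option autoImplicit false
set_option maxRecDepth 100000

namespace Pool.Agent.Gen.TY.LR.P0

open Pool.Agent.Helper82.TY

def p0 : rowsT 2 5 = true := by decide +kernel
def p1 : rowsT 7 11 = true := by decide +kernel
def p2 : rowsT 18 10 = true := by decide +kernel
def p3 : rowsT 28 8 = true := by decide +kernel
def p4 : rowsT 36 9 = true := by decide +kernel
def p5 : rowsT 45 4 = true := by decide +kernel
def p6 : rowsT 49 8 = true := by decide +kernel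
def p7 : rowsT 57 8 = true := by decide +kernel
def p8 : rowsT 65 8 = true := by decide +kernel
def p9 : rowsT 73 12 = true := by decide +kernel
def p10 : rowsT 85 8 = true := by decide +kernel
def p11 : rowsT 93 12 = true := by decide +kernel
def p12 : rowsT 105 11 = true := by decide +kernel
def p13 : rowsT 116 13 = true := by decide +kernel
def p14 : rowsT 129 11 = true := by decide +kernel
def p15 : rowsT 140 11 = true := by decide +kernel
def p16 : rowsT 151 11 = true := by decide +kernel
def p17 : rowsT 162 14 = true := by decide +kernel
def p18 : rowsT 176 5 = true := by decide +kernel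
def p19 : rowsT 181 5 = true := by decide +kernel
def p20 : rowsT 186 9 = true := by decide +kernel
def p21 : rowsT 195 6 = true := by decide +kernel

theorem ok {t : ℕ} (h1 : 2 ≤ t) (h2 : t < 201) : RowChk t := by
  rcases Nat.lt_or_ge t 7 with h | h
  · exact rowsT_spec p0 t (by omega) (by omega)
  clear h1; rename' h => h1
  rcases Nat.lt_or_ge t 18 with h | h
  · exact rowsT_spec p1 t (by omega) (by omega)
  clear h1; rename' h => h1
  rcases Nat.lt_or_ge t 28 with h | h
  · exact rowsT_spec p2 t (by omega) (by omega)
  clear h1; rename' h => h1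
  rcases Nat.lt_or_ge t 36 with h | h
  · exact rowsT_spec p3 t (by omega) (by omega)
  clear h1; rename' h => h1
  rcases Nat.lt_or_ge t 45 with h | h
  · exact rowsT_spec p4 t (by omega) (by omega)
  clear h1; rename' h => h1
  rcases Nat.lt_or_ge t 49 with h | h
  · exact rowsT_spec p5 t (by omega) (by omega)
  clear h1; rename' h => h1
  rcases Nat.lt_or_ge t 57 with h | h
  · exact rowsT_spec p6 t (by omega) (by omega)
  clear h1; rename' h => h1
  rcases Nat.lt_or_ge t 65 with h | h
  · exact rowsT_spec p7 t (by omega) (by omega)
  clear h1; rename' h => h1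
  rcases Nat.lt_or_ge t 73 with h | h
  · exact rowsT_spec p8 t (by omega) (by omega)
  clear h1; rename' h => h1
  rcases Nat.lt_or_ge t 85 with h | h
  · exact rowsT_spec p9 t (by omega) (by omega)
  clear h1; rename' h => h1
  rcases Nat.lt_or_ge t 93 with h | h
  · exact rowsT_spec p10 t (by omega) (by omega)
  clear h1; rename' h => h1
  rcases Nat.lt_or_ge t 105 with h | h
  · exact rowsT_spec p11 t (by omega) (by omega)
  clear h1; rename' h => h1
  rcases Nat.lt_or_ge t 116 with h | h
  · exact rowsT_spec p12 t (by omega) (by omega)
  clear h1; rename' h => h1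
  rcases Nat.lt_or_ge t 129 with h | h
  · exact rowsT_spec p13 t (by omega) (by omega)
  clear h1; rename' h => h1
  rcases Nat.lt_or_ge t 140 with h | h
  · exact rowsT_spec p14 t (by omega) (by omega)
  clear h1; rename' h => h1
  rcases Nat.lt_or_ge t 151 with h | h
  · exact rowsT_spec p15 t (by omega) (by omega)
  clear h1; rename' h => h1
  rcases Nat.lt_or_ge t 162 with h | h
  · exact rowsT_spec p16 t (by omega) (by omega)
  clear h1; rename' h => h1
  rcases Nat.lt_or_ge t 176 with h | h
  · exact rowsT_spec p17 t (by omega) (by omega)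
  clear h1; rename' h => h1
  rcases Nat.lt_or_ge t 181 with h | h
  · exact rowsT_spec p18 t (by omega) (by omega)
  clear h1; rename' h => h1
  rcases Nat.lt_or_ge t 186 with h | h
  · exact rowsT_spec p19 t (by omega) (by omega)
  clear h1; rename' h => h1
  rcases Nat.lt_or_ge t 195 with h | h
  · exact rowsT_spec p20 t (by omega) (by omega)
  clear h1; rename' h => h1
  exact rowsT_spec p21 t (by omega) (by omega)

end Pool.Agent.Gen.TY.LR.P0
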