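import Pool.Agent.Helper82.TY.LayAll
import Pool.Agent.Helper79.CV.Enc

/-! MP_8ee768_co, project TH-Y', rows with layers: sizes of all chunks, sizes of the types -/

set_option autoImplicit false
set_option maxRecDepth 100000

namespace Pool.Agent.Gen.TY.LR

open Pool.Agent.Helper82.TY
open Pool.Agent.Helper91.TY (chkDL)
open Pool.Agent.Helper52.TB (rowX)
open Pool.Agent.Helper7.TB (typ)

/-- the test `f` on a range of types -/
noncomputable def rngT (f : ℕ → Bool) (a n : ℕ) : Bool :=
  @Nat.rec (fun _ => Bool) true
    (fun k ih => @Bool.rec (fun _ => Bool) false ih (force (Nat.add a k) f)) n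

theorem rngT_spec {f : ℕ → Bool} {a : ℕ} : ∀ {n : ℕ}, rngT f a n = true →
    ∀ t, a ≤ t → t < a + n → f t = true
  | 0, _, t, h1, h2 => by omega
  | n + 1, h, t, h1, h2 => by
    have e : rngT f a (n + 1) =
      @Bool.rec (fun _ => Bool) false (rngT f a n) (force (a + n) f) := rfl
    rw [e, force_eq] at h
    cases h3 : f (a + n) with
    | false =>
      rw [h3] at h
      exact Bool.noConfusion h
    | true =>
      rw [h3] at h
      rcases Nat.lt_or_ge t (a + n) with h4 | h4
      · exact rngT_spec h t h1 h4
      · have h5 : t = a + n := by omega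
        rw [h5]
        exact h3

/-- sizes of the chunks -/
noncomputable def padT (t : ℕ) : Bool := chkDL 32768 (rowX t)

def pad0 : rngT padT 2 998 = true := by decide +kernel
def pad1 : rngT padT 1000 1000 = true := by decide +kernel
def pad2 : rngT padT 2000 1000 = true := by decide +kernel
def pad3 : rngT padT 3000 1000 = true := by decide +kernel
def pad4 : rngT padT 4000 1074 = true := by decide +kernel

theorem pad_all {t : ℕ} (h1 : 2 ≤ t) (h2 : t < 5074) : chkDL 32768 (rowX t) = true := by
  rcases Nat.lt_or_ge t 1000 with h | h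
  · exact rngT_spec pad0 t (by omega) (by omega)
  rcases Nat.lt_or_ge t 2000 with h | h
  · exact rngT_spec pad1 t (by omega) (by omega)
  rcases Nat.lt_or_ge t 3000 with h | h
  · exact rngT_spec pad2 t (by omega) (by omega)
  rcases Nat.lt_or_ge t 4000 with h | h
  · exact rngT_spec pad3 t (by omega) (by omega)
  exact rngT_spec pad4 t (by omega) (by omega)

/-- types with 21 blocks -/
noncomputable def c21 (t : ℕ) : Bool := Nat.beq (popR (typ t)) 21
/-- types with more than 21 blocks -/
noncomputable def c22 (t : ℕ) : Bool := Nat.ble 22 (popR (typ t))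

def c21_ok : rngT c21 2 981 = true := by decide +kernel
def c22_ok : rngT c22 983 4091 = true := by decide +kernel

end Pool.Agent.Gen.TY.LR
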